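import Pool.Agent.TH499.TF.Minor
import Pool.Agent.H179R3.HF.Sums
import Pool.Agent.H179R3.HF.MinusVertex

set_option autoImplicit false

/-!
# `1/2`-flow-pairs and treewidth at most four (MP_e59a69_co)

Let `G` be a bridgeless multigraph, and let `D` be a set of at most one edge such that `G - D` is
bridgeless, has treewidth at most four and has no Petersen minor (`G` itself may have a Petersen
minor, and its treewidth may be five).  Then `G` has a `1/2`-flow-pair, and so has every graph
obtained from `G` by iterated 2-, 3- and 4-sums with the Petersen graph.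

Proof: `G - D` has a nowhere-zero 4-flow (the 4-flow conjecture for treewidth at most four, file
`Pool/Agent/TH499/TF/Minor.lean`), so `G` has a 4-flow with at most one zero; now use the theorems on
nearly nowhere-zero 4-flows and on Petersen sums.
-/

namespace Pool.Agent.TH917.Out

open Finset Pool.Agent.H160R2.HF Pool.Agent.H179R3.HF

/-- the graph `G - D` -/
def del {V E : Type} (G : OrGraph V E) (D : Finset E) : OrGraph V {e : E // e ∉ D} :=
  ⟨fun e => G.t e, fun e => G.h e⟩

/-- the Petersen graph is a minor: there are disjoint connected sets of vertices, one for each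
two-element subset of `{0, 1, 2, 3, 4}`, and the sets for disjoint subsets are adjacent -/
def HasPetersenMinor {V E : Type} [Fintype E] (G : OrGraph V E) : Prop :=
  ∃ B : {s : Finset (Fin 5) // s.card = 2} → Set V,
    (∀ i, ((G.sub univ).induce (B i)).Connected) ∧
    (∀ i j, i ≠ j → Disjoint (B i) (B j)) ∧
    (∀ i j : {s : Finset (Fin 5) // s.card = 2}, Disjoint i.1 j.1 →
      ∃ x ∈ B i, ∃ y ∈ B j, (G.sub univ).Adj x y)

/-- tree decomposition of the graph, with bags `bag i` for the nodes `i` of the tree `T` -/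
def IsTreeDecomposition {V E ι : Type} (G : OrGraph V E) (T : SimpleGraph ι)
    (bag : ι → Finset V) : Prop :=
  T.IsTree ∧ (∀ v, ∃ i, v ∈ bag i) ∧ (∀ e, ∃ i, G.t e ∈ bag i ∧ G.h e ∈ bag i) ∧
    ∀ (i j : ι) (p : T.Walk i j), p.IsPath → ∀ k ∈ p.support, ∀ v, v ∈ bag i → v ∈ bag j →
      v ∈ bag k

/-- the treewidth is at most `k` -/
def TreewidthLE {V E : Type} (G : OrGraph V E) (k : ℕ) : Prop :=
  ∃ (ι : Type) (_ : Fintype ι) (T : SimpleGraph ι) (bag : ι → Finset V),
    IsTreeDecomposition G T bag ∧ ∀ i, (bag i).card ≤ k + 1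

/-- a nowhere-zero flow with values in `Z_2 x Z_2` -/
theorem exists_nz {V E : Type} [Fintype V] [DecidableEq V] [Fintype E] [DecidableEq E]
    (G : OrGraph V E) (hB : G.Bridgeless) (hP : ¬ HasPetersenMinor G) (hT : TreewidthLE G 4) :
    TH499.TF.NZ G.t G.h := by
  classical
  have hcut : ∀ Y, (TH499.TF.dlt G.t G.h Y).card ≠ 1 := by
    intro Y hY
    obtain ⟨e, he⟩ := card_eq_one.mp hY
    have hr := hB e
    have hstay : ∀ x y, (G.sub (univ.erase e)).Reachable x y → (x ∈ Y ↔ y ∈ Y) := by
      rintro x y ⟨p⟩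
      induction p with
      | nil => exact Iff.rfl
      | cons hadj _ ih =>
        refine Iff.trans ?_ ih
        unfold OrGraph.sub at hadj
        rw [SimpleGraph.fromRel_adj] at hadj
        obtain ⟨_, h1 | h1⟩ := hadj
        · obtain ⟨e', he', h2, h3⟩ := h1
          have hn : e' ∉ TH499.TF.dlt G.t G.h Y := by
            rw [he, mem_singleton]; exact ne_of_mem_erase he'
          rw [TH499.TF.mem_dlt, not_not] at hn
          rw [h2, h3] at hn; exact hn
        · obtain ⟨e', he', h2, h3⟩ := h1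
          have hn : e' ∉ TH499.TF.dlt G.t G.h Y := by
            rw [he, mem_singleton]; exact ne_of_mem_erase he'
          rw [TH499.TF.mem_dlt, not_not] at hn
          rw [h2, h3] at hn; exact hn.symm
    have hm : e ∈ TH499.TF.dlt G.t G.h Y := by rw [he]; exact mem_singleton_self _
    rw [TH499.TF.mem_dlt] at hm
    exact hm (hstay _ _ hr)
  have hPM : ¬ TH499.TF.PM G.t G.h := by
    rintro ⟨S, h1, h2, h3⟩
    apply hP
    have hadj : ∀ {e x y}, x ≠ y → TH499.TF.Joins G.t G.h e x y →
        (G.sub univ).Adj x y := by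
      intro e x y h hj
      unfold OrGraph.sub
      rw [SimpleGraph.fromRel_adj]
      refine ⟨h, hj.elim (fun hj => Or.inl ⟨e, mem_univ _, hj.1, hj.2⟩)
        (fun hj => Or.inr ⟨e, mem_univ _, hj.1, hj.2⟩)⟩
    have hne : ∀ i, (S i).Nonempty := by
      intro i
      obtain ⟨j, hj⟩ : ∃ j : {s : Finset (Fin 5) // s.card = 2}, Disjoint i.1 j.1 := by
        revert i; decide
      obtain ⟨e, x, y, hx, _⟩ := h3 i j hj
      exact ⟨x, hx⟩
    refine ⟨fun i => (S i : Set V), ?_, ?_, ?_⟩
    · intro i
      obtain ⟨x0, hx0⟩ := hne i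
      rw [SimpleGraph.connected_iff_exists_forall_reachable]
      refine ⟨⟨x0, hx0⟩, ?_⟩
      by_contra hcon
      push Not at hcon
      obtain ⟨⟨y0, hy0⟩, hy1⟩ := hcon
      obtain ⟨e, a, b, ha, hb, hbA, hj⟩ := h1 i
        ((S i).filter (fun x => ∃ h : x ∈ (S i : Set V),
          ((G.sub univ).induce (S i : Set V)).Reachable ⟨x0, hx0⟩ ⟨x, h⟩))
        (filter_subset _ _) ⟨x0, mem_filter.mpr ⟨hx0, hx0, SimpleGraph.Reachable.refl _⟩⟩
        (fun h => by
          have h4 : y0 ∈ (S i).filter (fun x => ∃ h : x ∈ (S i : Set V),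
              ((G.sub univ).induce (S i : Set V)).Reachable ⟨x0, hx0⟩ ⟨x, h⟩) := by
            rw [h]; exact hy0
          obtain ⟨_, _, h5⟩ := mem_filter.mp h4
          exact hy1 h5)
      apply hbA
      rw [mem_filter] at ha ⊢
      obtain ⟨ha1, ha2, ha3⟩ := ha
      refine ⟨hb, hb, ha3.trans ?_⟩
      apply SimpleGraph.Adj.reachable
      have hab : a ≠ b := fun h => hbA (mem_filter.mpr ⟨hb, h ▸ ⟨ha2, ha3⟩⟩)
      exact hadj hab hj
    · intro i j hij
      exact disjoint_coe.mpr (h2 i j hij)
    · intro i j hij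
      obtain ⟨e, x, y, hx, hy, hj⟩ := h3 i j hij
      refine ⟨x, hx, y, hy, hadj ?_ hj⟩
      rintro rfl
      exact disjoint_left.mp (h2 i j (TH499.TF.pr_ne i j hij)) hx hy
  obtain ⟨ι, _, T, bag, ⟨t1, _, t2, t3⟩, t4⟩ := hT
  have hTD : TH499.TF.HasTD 5 G.t G.h := TH499.TF.HasTD.of_tree t1 t3 t2 t4
  exact TH499.TF.cls_nz _ G.t G.h rfl ⟨hTD, hPM⟩ hcut

/-- a flow of `G - D` is a flow of `G` with value zero on `D` -/
theorem exists_flow {V E : Type} [Fintype V] [DecidableEq V] [Fintype E] [DecidableEq E]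
    (G : OrGraph V E) (D : Finset E) (h : TH499.TF.NZ (del G D).t (del G D).h) :
    ∃ f : E → K4, IsZ G f ∧ ∀ e, f e = 0 → e ∈ D := by
  classical
  obtain ⟨f, hf, hd⟩ := h
  refine ⟨fun e => if he : e ∉ D then f ⟨e, he⟩ else 0, ?_, ?_⟩
  · intro v
    have h1 := hd v
    unfold TH499.TF.dv TH499.TF.jn at h1
    rw [sum_add_distrib] at h1
    have key : ∀ k : E → V, ∑ e with k e = v, (if he : e ∉ D then f ⟨e, he⟩ else 0) =
        ∑ e : {e : E // e ∉ D}, if k e = v then f e else 0 := by
      intro k
      rw [sum_filter, ← Finset.sum_filter_add_sum_filter_not univ (fun e => e ∉ D)]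
      have h2 : ∑ x ∈ univ.filter (fun e => ¬ e ∉ D),
          (if k x = v then (if he : x ∉ D then f ⟨x, he⟩ else 0) else 0) = 0 := by
        refine sum_eq_zero fun x hx => ?_
        rw [dif_neg (mem_filter.1 hx).2, ite_self]
      rw [h2, add_zero]
      rw [← Finset.sum_subtype (univ.filter fun e => e ∉ D) (p := fun e => e ∉ D) (by simp)
        (fun x => if k x = v then (if he : x ∉ D then f ⟨x, he⟩ else 0) else 0) |>.symm]
      refine sum_congr rfl fun x _ => ?_
      rw [dif_pos x.2]
    rw [key, key]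
    exact h1
  · intro e he
    by_contra hne
    change (if he : e ∉ D then f ⟨e, he⟩ else 0) = 0 at he
    rw [dif_pos hne] at he
    exact hf _ he

/-- **Theorem.** Let `G` be a bridgeless graph and `D` a set of at most one edge such that `G - D`
is bridgeless, has treewidth at most four and has no Petersen minor. Then every graph `K` which
arises from `G` by a sequence of 2-, 3- and 4-sums with the Petersen graph (for example `K = G`) has
a `1/2`-flow-pair. -/
theorem result (V V' E E' : Type) [Fintype V] [Fintype E] [DecidableEq V] [DecidableEq E]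
    [Fintype V'] [Fintype E'] [DecidableEq V'] [DecidableEq E'] (G : OrGraph V E)
    (K : OrGraph V' E') (hK : PetersenSum G K) (hB : G.Bridgeless) (D : Finset E)
    (hD : D.card ≤ 1) (hDB : (del G D).Bridgeless) (hP : ¬ HasPetersenMinor (del G D))
    (hT : TreewidthLE (del G D) 4) :
    ∃ φ₂ φ₄ : E' → ℤ, K.IsHalfFlowPair φ₂ φ₄ := by
  obtain ⟨f, hf, h0⟩ := exists_flow G D (exists_nz (del G D) hDB hP hT)
  have hG := nearlyK' G hB hf fun g g' hg hg' =>
    card_le_one.1 hD g (h0 g hg) g' (h0 g' hg')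
  exact (hasPair_iff K).1 (hasPair_of_petersenSum hK ((hasPair_iff G).2 hG))

end Pool.Agent.TH917.Out
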